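import Pool.Agent.helper88.RL.SpecL
set_option autoImplicit false
namespace Pool.Agent.RL
open Finset Pool.Agent.helper3.FT Pool.Agent.T6 Pool.Agent.RF

theorem Z2_fin (k V y1 y2 : ℝ) (hk : 0 ≤ k) (hV : 1 ≤ V) (_hy1 : 0 ≤ y1) (hy2 : 0 ≤ y2) (h : 1 ≤ y1 * y2)
    (f1 : k * y1 ≤ 46875 * V) (f2 : k * y2 ≤ 9375 * V) : k ≤ 30000 * V := by
  have h1 : k ^ 2 ≤ (k * y1) * (k * y2) := by nlinarith [sq_nonneg k]
  have h2 : (k * y1) * (k * y2) ≤ (46875 * V) * (9375 * V) := mul_le_mul f1 f2 (by positivity) (by positivity)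
  have h3 : k ^ 2 ≤ (30000 * V) ^ 2 := by nlinarith [sq_nonneg V]
  exact abs_le_of_sq_le_sq' h3 (by positivity) |>.2

theorem Z2_abs (V A1 A2 x1 x2 a1 a2 z1 z2 s : ℝ) (hs1 : 2 < s) (hs2 : s < 5 / 2) (hV : 1 ≤ V)
    (ha1 : |a1| ≤ 3 * V) (ha2 : |a2| ≤ 3 * V) (hz1 : |z1| ≤ 3 * V) (hz2 : |z2| ≤ 3 * V)
    (e1 : 3125 * a1 = A2 ^ 3 * x1) (e2 : 3125 * a2 = A1 ^ 3 * x2)
    (e3 : 3125 * z1 = A2 ^ 3 * x2 + (1 + s) * A2 * x1 * A1 ^ 2)
    (e4 : 3125 * z2 = A1 ^ 3 * x1 + (1 - s) * A1 * x2 * A2 ^ 2)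
    (hx : 1 ≤ |x1| * |x2|) : |A1| ^ 3 ≤ 30000 * V ∧ |A2| ^ 3 ≤ 30000 * V := by
  have f1 : |A2| ^ 3 * |x1| ≤ 9375 * V := by
    have h1 : |A2| ^ 3 * |x1| = 3125 * |a1| := by
      rw [← abs_pow, ← abs_mul, ← e1, abs_mul]; norm_num
    linarith
  have f2 : |A1| ^ 3 * |x2| ≤ 9375 * V := by
    have h1 : |A1| ^ 3 * |x2| = 3125 * |a2| := by
      rw [← abs_pow, ← abs_mul, ← e2, abs_mul]; norm_num
    linarith
  have f3 : |A2| ^ 3 * |x2| ≤ 9375 * V + 4 * (|A2| * |x1| * |A1| ^ 2) := by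
    have h1 : A2 ^ 3 * x2 = 3125 * z1 - (1 + s) * (A2 * x1 * A1 ^ 2) := by rw [e3]; ring
    have h2 : |A2| ^ 3 * |x2| ≤ 3125 * |z1| + (1 + s) * (|A2| * |x1| * |A1| ^ 2) := by
      rw [← abs_pow, ← abs_mul, h1]
      refine (abs_sub _ _).trans ?_
      rw [abs_mul 3125, abs_mul (1 + s), abs_of_pos (show (0 : ℝ) < 1 + s by linarith), abs_mul, abs_mul, abs_pow]
      norm_num
    have h3 : 0 ≤ |A2| * |x1| * |A1| ^ 2 := by positivity
    nlinarith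
  have f4 : |A1| ^ 3 * |x1| ≤ 9375 * V + 2 * (|A1| * |x2| * |A2| ^ 2) := by
    have h1 : A1 ^ 3 * x1 = 3125 * z2 - (1 - s) * (A1 * x2 * A2 ^ 2) := by rw [e4]; ring
    have h2 : |A1| ^ 3 * |x1| ≤ 3125 * |z2| + (s - 1) * (|A1| * |x2| * |A2| ^ 2) := by
      rw [← abs_pow, ← abs_mul, h1]
      refine (abs_sub _ _).trans ?_
      rw [abs_mul 3125, abs_mul (1 - s), abs_of_neg (show (1 - s : ℝ) < 0 by linarith), abs_mul, abs_mul, abs_pow]
      norm_num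
    have h3 : 0 ≤ |A1| * |x2| * |A2| ^ 2 := by positivity
    nlinarith
  have hy1 := abs_nonneg x1
  have hy2 := abs_nonneg x2
  have hk1 := abs_nonneg A1
  have hk2 := abs_nonneg A2
  generalize |A1| = k1 at *
  generalize |A2| = k2 at *
  generalize |x1| = y1 at *
  generalize |x2| = y2 at *
  rcases le_total k2 k1 with h | h
  · have h1 : k1 * y2 * k2 ^ 2 ≤ k1 ^ 3 * y2 := by
      have : k2 ^ 2 ≤ k1 ^ 2 := pow_le_pow_left₀ hk2 h 2
      calc k1 * y2 * k2 ^ 2 ≤ k1 * y2 * k1 ^ 2 := mul_le_mul_of_nonneg_left this (by positivity)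
        _ = k1 ^ 3 * y2 := by ring
    have h2 : k1 ^ 3 ≤ 30000 * V := Z2_fin (k1 ^ 3) V y1 y2 (by positivity) hV hy1 hy2 hx (by linarith) f2
    exact ⟨h2, le_trans (pow_le_pow_left₀ hk2 h 3) h2⟩
  · have h1 : k2 * y1 * k1 ^ 2 ≤ k2 ^ 3 * y1 := by
      have : k1 ^ 2 ≤ k2 ^ 2 := pow_le_pow_left₀ hk1 h 2
      calc k2 * y1 * k1 ^ 2 ≤ k2 * y1 * k2 ^ 2 := mul_le_mul_of_nonneg_left this (by positivity)
        _ = k2 ^ 3 * y1 := by ring
    have h2 : k2 ^ 3 ≤ 30000 * V := Z2_fin (k2 ^ 3) V y2 y1 (by positivity) hV hy2 hy1 (by rw [mul_comm]; exact hx) (by linarith) f1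
    exact ⟨le_trans (pow_le_pow_left₀ hk1 h 3) h2, h2⟩

theorem Z2_cube (x A1 A2 C : ℝ) (h1 : |A1| ^ 3 ≤ C) (h2 : |A2| ^ 3 ≤ C) (h : |x| ≤ max |A1| |A2|) : |x| ^ 3 ≤ C := by
  rcases max_cases |A1| |A2| with ⟨h3, _⟩ | ⟨h3, _⟩
  · rw [h3] at h
    exact (pow_le_pow_left₀ (abs_nonneg x) h 3).trans h1
  · rw [h3] at h
    exact (pow_le_pow_left₀ (abs_nonneg x) h 3).trans h2

theorem Z2_size (V : ℝ) (hV : 0 ≤ V) (x y : ℤ) (hx : |(x : ℝ)| ≤ V) (hy : |(y : ℝ)| ≤ V) :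
    |va ⟨x, y⟩| ≤ 3 * V ∧ |vb ⟨x, y⟩| ≤ 3 * V := by
  have hs : (2 : ℝ) < √5 := by
    rw [show (2 : ℝ) = √4 by rw [show (4 : ℝ) = 2 ^ 2 by norm_num]; exact (Real.sqrt_sq (by norm_num)).symm]
    exact Real.sqrt_lt_sqrt (by norm_num) (by norm_num)
  have hs2 : √5 < (5 / 2 : ℝ) := by
    rw [show (5 / 2 : ℝ) = √(25 / 4) by rw [show (25 / 4 : ℝ) = (5 / 2) ^ 2 by norm_num]; exact (Real.sqrt_sq (by norm_num)).symm]
    exact Real.sqrt_lt_sqrt (by norm_num) (by norm_num)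
  constructor
  · show |(x : ℝ) + y * ((1 + √5) / 2)| ≤ 3 * V
    refine (abs_add_le _ _).trans ?_
    rw [abs_mul, abs_of_pos (show (0 : ℝ) < (1 + √5) / 2 by linarith)]
    nlinarith [abs_nonneg (y : ℝ)]
  · show |(x : ℝ) + y * ((1 - √5) / 2)| ≤ 3 * V
    refine (abs_add_le _ _).trans ?_
    rw [abs_mul, abs_of_neg (show ((1 - √5) / 2 : ℝ) < 0 by linarith)]
    nlinarith [abs_nonneg (y : ℝ)]

theorem Z2 (hZ1 : Z1_stmt) (h1 : WEU_stmt) (h2 : WVA_stmt) : Z2_stmt := by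
  have hdom : IsDomain OO := h1.1
  obtain ⟨va_mul, vb_mul, vadd, vint, vstar, vnorm, vne⟩ := h2
  refine ⟨30000, by norm_num, ?_⟩
  intro b V n k v hb hnk hW hv hV
  obtain ⟨⟨α, hα⟩, hrel⟩ := hZ1 n k v hnk hW
  have hK0 : (⟨n, k⟩ : OO) ≠ 0 := by
    intro h0
    have hn : n = 0 := congrArg QuadraticAlgebra.re h0
    have hk : k = 0 := congrArg QuadraticAlgebra.im h0
    rw [hn, hk] at hnk
    exact not_isCoprime_zero_zero hnk
  have hK0' : star (⟨n, k⟩ : OO) ≠ 0 := star_ne_zero.mpr hK0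
  -- the coordinates
  have hc1 : |(v.1 : ℝ)| ≤ V := (le_max_left _ _).trans ((le_max_left _ _).trans hV)
  have hc2 : |(v.2.1 : ℝ)| ≤ V := (le_max_right _ _).trans ((le_max_left _ _).trans hV)
  have hc3 : |(v.2.2.1 : ℝ)| ≤ V := (le_max_left _ _).trans ((le_max_right _ _).trans hV)
  have hc4 : |(v.2.2.2 : ℝ)| ≤ V := (le_max_right _ _).trans ((le_max_right _ _).trans hV)
  have hone : ∀ x : ℤ, x ≠ 0 → |(x : ℝ)| ≤ V → 1 ≤ V := by
    intro x hx hxV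
    have : (1 : ℝ) ≤ |(x : ℝ)| := by
      rw [← Int.cast_abs]
      exact_mod_cast Int.one_le_abs hx
    linarith
  have hV1 : 1 ≤ V := by
    by_contra hcon
    apply hv
    have hz : ∀ x : ℤ, |(x : ℝ)| ≤ V → x = 0 := fun x hx => by
      by_contra h0
      exact hcon (hone x h0 hx)
    exact Prod.ext (hz _ hc1) (Prod.ext (hz _ hc2) (Prod.ext (hz _ hc3) (hz _ hc4)))
  have ha0 : va4 v ≠ 0 := by
    intro h0
    rw [h0] at hrel
    have h3 : vz4 v * (⟨n, k⟩ : OO) ^ 3 * star ⟨n, k⟩ ^ 2 = 0 := by rw [hrel]; simp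
    have h4 : vz4 v = 0 := by
      rcases mul_eq_zero.mp h3 with h5 | h5
      · rcases mul_eq_zero.mp h5 with h6 | h6
        · exact h6
        · exact absurd (pow_eq_zero_iff (by norm_num) |>.mp h6) hK0
      · exact absurd (pow_eq_zero_iff (by norm_num) |>.mp h5) hK0'
    apply hv
    exact Prod.ext (congrArg QuadraticAlgebra.re h0) (Prod.ext (congrArg QuadraticAlgebra.im h0)
      (Prod.ext (congrArg QuadraticAlgebra.re h4) (congrArg QuadraticAlgebra.im h4)))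
  have h3125 : (3125 : OO) = ((3125 : ℤ) : OO) := by norm_num
  have h3ne : (3125 : OO) ≠ 0 := by
    rw [h3125]
    intro h0
    have h5 := (vint 3125).1
    have h6 := (vint 0).1
    rw [h0] at h5
    rw [Int.cast_zero, Int.cast_zero] at h6
    rw [h6] at h5
    norm_num at h5
  have hα0 : α ≠ 0 := by
    rintro rfl
    rw [mul_zero] at hα
    rcases mul_eq_zero.mp hα with h5 | h5
    · exact h3ne h5
    · exact ha0 h5
  -- the relation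
  have hα' : 3125 * star (va4 v) = (⟨n, k⟩ : OO) ^ 3 * star α := by
    have h5 := congrArg star hα
    rw [star_mul', star_mul', star_pow, star_star] at h5
    have h6 : star (3125 : OO) = 3125 := by
      rw [h3125]; exact star_intCast _
    rwa [h6] at h5
  have hz : 3125 * vz4 v = star (⟨n, k⟩ : OO) ^ 3 * star α + 2 * ph * (star ⟨n, k⟩ * α * (⟨n, k⟩ : OO) ^ 2) := by
    have hne : (⟨n, k⟩ : OO) ^ 3 * star ⟨n, k⟩ ^ 2 ≠ 0 := mul_ne_zero (pow_ne_zero 3 hK0) (pow_ne_zero 2 hK0')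
    apply mul_right_cancel₀ hne
    generalize (⟨n, k⟩ : OO) = K at *
    generalize star K = K' at *
    generalize star (va4 v) = a' at *
    generalize star α = α' at *
    calc 3125 * vz4 v * (K ^ 3 * K' ^ 2) = 3125 * (vz4 v * K ^ 3 * K' ^ 2) := by ring
      _ = (3125 * a') * K' ^ 5 + 2 * ph * (3125 * va4 v) * K ^ 5 := by rw [hrel]; ring
      _ = _ := by rw [hα, hα']; ring
  -- the two places
  have v3a : va (3125 : OO) = 3125 := by rw [h3125, (vint 3125).1]; norm_num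
  have v3b : vb (3125 : OO) = 3125 := by rw [h3125, (vint 3125).2]; norm_num
  have v2a : va (2 : OO) = 2 := by
    have := (vint 2).1
    exact_mod_cast this
  have v2b : vb (2 : OO) = 2 := by
    have := (vint 2).2
    exact_mod_cast this
  have vpa : va ph = (1 + √5) / 2 := by simp [va, ph]
  have vpb : vb ph = (1 - √5) / 2 := by simp [vb, ph]
  have pa : ∀ (x : OO) (m : ℕ), va (x ^ (m + 1)) = va x ^ (m + 1) := by
    intro x m
    induction m with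
    | zero => simp
    | succ m ih => rw [pow_succ, va_mul, ih, ← pow_succ]
  have pb : ∀ (x : OO) (m : ℕ), vb (x ^ (m + 1)) = vb x ^ (m + 1) := by
    intro x m
    induction m with
    | zero => simp
    | succ m ih => rw [pow_succ, vb_mul, ih, ← pow_succ]
  have e1 : 3125 * va (va4 v) = vb ⟨n, k⟩ ^ 3 * va α := by
    have h5 := congrArg va hα
    rwa [va_mul, va_mul, v3a, pa _ 2, (vstar _).1] at h5
  have e2 : 3125 * vb (va4 v) = va ⟨n, k⟩ ^ 3 * vb α := by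
    have h5 := congrArg vb hα
    rwa [vb_mul, vb_mul, v3b, pb _ 2, (vstar _).2] at h5
  have e3 : 3125 * va (vz4 v) = vb ⟨n, k⟩ ^ 3 * vb α + (1 + √5) * vb ⟨n, k⟩ * va α * va ⟨n, k⟩ ^ 2 := by
    have h5 := congrArg va hz
    rw [va_mul, (vadd _ _).1, va_mul, va_mul, va_mul, va_mul, va_mul, v3a, v2a, vpa, pa _ 2, pa _ 1, (vstar _).1, (vstar _).1] at h5
    rw [h5]
    ring
  have e4 : 3125 * vb (vz4 v) = va ⟨n, k⟩ ^ 3 * va α + (1 - √5) * va ⟨n, k⟩ * vb α * vb ⟨n, k⟩ ^ 2 := by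
    have h5 := congrArg vb hz
    rw [vb_mul, (vadd _ _).2.2.1, vb_mul, vb_mul, vb_mul, vb_mul, vb_mul, v3b, v2b, vpb, pb _ 2, pb _ 1, (vstar _).2, (vstar _).2] at h5
    rw [h5]
    ring
  have hs : (2 : ℝ) < √5 := by
    rw [show (2 : ℝ) = √4 by rw [show (4 : ℝ) = 2 ^ 2 by norm_num]; exact (Real.sqrt_sq (by norm_num)).symm]
    exact Real.sqrt_lt_sqrt (by norm_num) (by norm_num)
  have hs2 : √5 < (5 / 2 : ℝ) := by
    rw [show (5 / 2 : ℝ) = √(25 / 4) by rw [show (25 / 4 : ℝ) = (5 / 2) ^ 2 by norm_num]; exact (Real.sqrt_sq (by norm_num)).symm]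
    exact Real.sqrt_lt_sqrt (by norm_num) (by norm_num)
  obtain ⟨sa1, sa2⟩ := Z2_size V (by linarith) v.1 v.2.1 hc1 hc2
  obtain ⟨sz1, sz2⟩ := Z2_size V (by linarith) v.2.2.1 v.2.2.2 hc3 hc4
  obtain ⟨g1, g2⟩ := Z2_abs V (va ⟨n, k⟩) (vb ⟨n, k⟩) (va α) (vb α) (va (va4 v)) (vb (va4 v)) (va (vz4 v)) (vb (vz4 v)) (√5)
    hs hs2 hV1 sa1 sa2 sz1 sz2 e1 e2 e3 e4 (vne α hα0).2.1
  have hA1 : va ⟨n, k⟩ = (n : ℝ) + k * ((1 + √5) / 2) := rfl
  have hA2 : vb ⟨n, k⟩ = (n : ℝ) + k * ((1 - √5) / 2) := rfl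
  have hsq : √5 * √5 = (5 : ℝ) := Real.mul_self_sqrt (by norm_num)
  constructor
  · apply Z2_cube _ _ _ _ g1 g2
    have h5 : (n : ℝ) * √5 = (1 + √5) / 2 * vb ⟨n, k⟩ - (1 - √5) / 2 * va ⟨n, k⟩ := by
      rw [hA1, hA2]
      ring
    have h6 : |(n : ℝ)| * √5 ≤ (1 + √5) / 2 * |vb ⟨n, k⟩| + (√5 - 1) / 2 * |va ⟨n, k⟩| := by
      rw [show |(n : ℝ)| * √5 = |(n : ℝ) * √5| by rw [abs_mul, abs_of_pos (show (0 : ℝ) < √5 by linarith)], h5]
      refine (abs_sub _ _).trans ?_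
      rw [abs_mul, abs_mul, abs_of_pos (show (0 : ℝ) < (1 + √5) / 2 by linarith), abs_of_neg (show ((1 - √5) / 2 : ℝ) < 0 by linarith)]
      apply le_of_eq
      ring
    have h7 := le_max_left |va ⟨n, k⟩| |vb ⟨n, k⟩|
    have h8 := le_max_right |va ⟨n, k⟩| |vb ⟨n, k⟩|
    have h9 : |(n : ℝ)| * √5 ≤ (max |va ⟨n, k⟩| |vb ⟨n, k⟩|) * √5 := by nlinarith
    exact le_of_mul_le_mul_right h9 (by linarith)
  · apply Z2_cube _ _ _ _ g1 g2
    have h5 : (k : ℝ) * √5 = va ⟨n, k⟩ - vb ⟨n, k⟩ := by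
      rw [hA1, hA2]
      ring
    have h6 : |(k : ℝ)| * √5 ≤ |va ⟨n, k⟩| + |vb ⟨n, k⟩| := by
      rw [show |(k : ℝ)| * √5 = |(k : ℝ) * √5| by rw [abs_mul, abs_of_pos (show (0 : ℝ) < √5 by linarith)], h5]
      exact abs_sub _ _
    have h7 := le_max_left |va ⟨n, k⟩| |vb ⟨n, k⟩|
    have h8 := le_max_right |va ⟨n, k⟩| |vb ⟨n, k⟩|
    have h10 := abs_nonneg (va ⟨n, k⟩)
    have h9 : |(k : ℝ)| * √5 ≤ (max |va ⟨n, k⟩| |vb ⟨n, k⟩|) * √5 := by nlinarith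
    exact le_of_mul_le_mul_right h9 (by linarith)

end Pool.Agent.RL
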